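import Pool.Agent.V5helper91.Toric.Example

/-!
# The volume gap for toric K-semistable Fano varieties

A toric Fano variety `X` of dimension `n` (not necessarily smooth) is given by the finite set
`V ⊂ ℤⁿ` of the primitive generators of the rays of its fan, which are the vertices of a lattice
polytope containing the origin in its interior.  The anticanonical volume `(-K_X)ⁿ` is `n!` times
the volume of the moment polytope `P = {x : ⟨x, v⟩ ≥ -1 for all v ∈ V}`, and `X` is K-semistable
if and only if the barycentre of `P` is the origin.  We prove that for `n ≥ 2` the maximum of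
`(-K_X)ⁿ` over the toric K-semistable Fano varieties `X` other than `ℙⁿ` is `2 nⁿ`.
-/

namespace Pool.Agent.Results.MP_d76efa_ag.ToricGap

open MeasureTheory

/-- `V` is the set of ray generators of a toric Fano variety of dimension `n`: its elements are
primitive, they are vertices of their convex hull, and this convex hull contains `0` in its
interior. -/
structure IsToricFano {n : ℕ} (V : Finset (Fin n → ℤ)) : Prop where
  interior : (0 : Fin n → ℝ) ∈
    interior (convexHull ℝ ((fun (v : Fin n → ℤ) (i : Fin n) => (v i : ℝ)) '' V))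
  primitive : ∀ v ∈ V, ∀ (d : ℤ) (w : Fin n → ℤ), v = d • w → IsUnit d
  vertex : ∀ v ∈ V, (fun i => (v i : ℝ)) ∉
    convexHull ℝ ((fun (v : Fin n → ℤ) (i : Fin n) => (v i : ℝ)) '' ((V : Set (Fin n → ℤ)) \ {v}))

/-- The moment polytope of the anticanonical divisor. -/
def momentPolytope {n : ℕ} (V : Finset (Fin n → ℤ)) : Set (Fin n → ℝ) :=
  {x | ∀ v ∈ V, -1 ≤ ∑ i, x i * (v i : ℝ)}

/-- The anticanonical volume `(-K_X)ⁿ`. -/
noncomputable def vol {n : ℕ} (V : Finset (Fin n → ℤ)) : ℝ :=
  (n.factorial : ℝ) * (volume (momentPolytope V)).toReal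

/-- K-semistability of a toric Fano variety: the barycentre of the moment polytope is `0`. -/
def IsKSemistable {n : ℕ} (V : Finset (Fin n → ℤ)) : Prop :=
  ∀ i, ∫ x in momentPolytope V, x i = 0

/-- `V` consists of the rays of the fan of `ℙⁿ`: a basis `b` of `ℤⁿ` and `-∑ b i`. -/
def IsProjectiveSpace {n : ℕ} (V : Finset (Fin n → ℤ)) : Prop :=
  ∃ b : Fin n → Fin n → ℤ, |(Matrix.of b).det| = 1 ∧
    V = insert (-∑ i, b i) (Finset.univ.image b)

/-- **The toric volume gap.** For `n ≥ 2` the largest anticanonical volume of a toric K-semistable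
Fano variety of dimension `n` other than `ℙⁿ` is `2 nⁿ`. -/
theorem result (n : ℕ) (hn : 2 ≤ n) :
    IsGreatest {d : ℝ | ∃ V : Finset (Fin n → ℤ), IsToricFano V ∧ IsKSemistable V ∧
      ¬ IsProjectiveSpace V ∧ d = vol V} (2 * (n : ℝ) ^ n) := by
  constructor
  · obtain ⟨m, rfl⟩ : ∃ m, n = m + 1 := ⟨n - 1, by omega⟩
    have hm : 1 ≤ m := by omega
    have hint := Pool.Agent.V5helper91.Toric.interior_rays hm
    refine ⟨Pool.Agent.V5helper91.Toric.rays m,
      ⟨hint, fun v hv d w h => Pool.Agent.V5helper91.Toric.primitive_rays hm v hv d w h,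
        fun v hv => Pool.Agent.V5helper91.Toric.vertex_rays hm v hv⟩, ?_,
      Pool.Agent.V5helper91.Toric.not_proj, Pool.Agent.V5helper91.Toric.degree_rays.symm⟩
    exact Pool.Agent.V5helper91.Toric.bar_rays
      (Pool.Agent.V5helper91.Toric.isCompact_momentPolytope _ hint)
  · rintro d ⟨V, hV, hK, hP, rfl⟩
    refine Pool.Agent.V5helper91.Toric.gap (by omega) V hV.interior ?_ hK hP
    intro v hv h0
    have h1 := hV.primitive v hv 0 0 (by rw [h0]; simp)
    exact absurd h1 not_isUnit_zero

end Pool.Agent.Results.MP_d76efa_ag.ToricGap
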